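import Pool.Agent.N561.A.Stm
import Pool.Agent.W398.HT.RRD2

/-!
# Small vertices: derivatives of `LL` and `LS`
-/

set_option autoImplicit false

namespace Pool.Agent.N119.VS

open Filter Topology Metric MeasureTheory Set
open Pool.Agent.W711.HT Pool.Agent.N561
open scoped Real

theorem cos_re' (w : ℂ) : (Complex.cos w).re = Real.cos w.re * Real.cosh w.im := by
  rw [Complex.cos_eq]
  simp [← Complex.ofReal_cos, ← Complex.ofReal_sin, ← Complex.ofReal_cosh, ← Complex.ofReal_sinh]

theorem cos_im' (w : ℂ) : (Complex.cos w).im = -(Real.sin w.re * Real.sinh w.im) := by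
  rw [Complex.cos_eq]
  simp [← Complex.ofReal_cos, ← Complex.ofReal_sin, ← Complex.ofReal_cosh, ← Complex.ofReal_sinh]

theorem sin_re' (w : ℂ) : (Complex.sin w).re = Real.sin w.re * Real.cosh w.im := by
  rw [Complex.sin_eq]
  simp [← Complex.ofReal_cos, ← Complex.ofReal_sin, ← Complex.ofReal_cosh, ← Complex.ofReal_sinh]

theorem sin_im' (w : ℂ) : (Complex.sin w).im = Real.cos w.re * Real.sinh w.im := by
  rw [Complex.sin_eq]
  simp [← Complex.ofReal_cos, ← Complex.ofReal_sin, ← Complex.ofReal_cosh, ← Complex.ofReal_sinh]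

/-- the domain of `LL` -/
def WC : Set ℂ := {w | |w.re| < π ∧ (|w.re| < π / 2 ∨ w.im ≠ 0)}

/-- the domain of `LS` -/
def WS : Set ℂ := {w | -(π / 2) < w.re ∧ w.re < π ∧ (0 < w.re ∨ w.im ≠ 0)}

theorem isOpen_WC : IsOpen WC := by
  have h1 : IsOpen {w : ℂ | |w.re| < π} :=
    isOpen_lt (continuous_abs.comp Complex.continuous_re) continuous_const
  have h2 : IsOpen {w : ℂ | |w.re| < π / 2} :=
    isOpen_lt (continuous_abs.comp Complex.continuous_re) continuous_const
  have h3 : IsOpen {w : ℂ | w.im ≠ 0} := isOpen_ne_fun Complex.continuous_im continuous_const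
  exact h1.inter (h2.union h3)

theorem isOpen_WS : IsOpen WS := by
  have h1 : IsOpen {w : ℂ | -(π / 2) < w.re} := isOpen_lt continuous_const Complex.continuous_re
  have h2 : IsOpen {w : ℂ | w.re < π} := isOpen_lt Complex.continuous_re continuous_const
  have h4 : IsOpen {w : ℂ | 0 < w.re} := isOpen_lt continuous_const Complex.continuous_re
  have h3 : IsOpen {w : ℂ | w.im ≠ 0} := isOpen_ne_fun Complex.continuous_im continuous_const
  exact h1.inter (h2.inter (h4.union h3))

theorem two_mul_mem {z : ℂ} (h : z ∈ Complex.slitPlane) : 2 * z ∈ Complex.slitPlane := by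
  rw [Complex.mem_slitPlane_iff] at h ⊢
  simpa using h

theorem cos_mem {w : ℂ} (hw : w ∈ WC) : Complex.cos w ∈ Complex.slitPlane := by
  obtain ⟨h1, h2⟩ := hw
  rw [Complex.mem_slitPlane_iff, cos_re', cos_im']
  have hp := Real.pi_pos
  rcases lt_or_ge |w.re| (π / 2) with h | h
  · left
    apply mul_pos _ (Real.cosh_pos _)
    rw [abs_lt] at h
    exact Real.cos_pos_of_mem_Ioo ⟨by linarith, by linarith⟩
  · have h3 : w.im ≠ 0 := by
      rcases h2 with h2 | h2
      · exact absurd h2 (not_lt.2 h)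
      · exact h2
    right
    rw [neg_ne_zero]
    apply mul_ne_zero
    · rw [Ne, Real.sin_eq_zero_iff]
      rintro ⟨n, hn⟩
      rw [← hn, abs_mul, abs_of_pos hp] at h h1
      have h4 : |(n : ℝ)| < 1 := by
        by_contra hc
        push Not at hc
        nlinarith
      have h5 : (0 : ℝ) < |(n : ℝ)| := by
        by_contra hc
        push Not at hc
        nlinarith
      have h6 : |n| < 1 := by exact_mod_cast h4
      have h7 : 0 < |n| := by exact_mod_cast h5
      omega
    · rwa [Ne, Real.sinh_eq_zero]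

theorem sin_mem {w : ℂ} (hw : w ∈ WS) : Complex.sin w ∈ Complex.slitPlane := by
  obtain ⟨h1, h2, h3⟩ := hw
  rw [Complex.mem_slitPlane_iff, sin_re', sin_im']
  have hp := Real.pi_pos
  rcases lt_or_ge 0 w.re with h | h
  · left
    exact mul_pos (Real.sin_pos_of_pos_of_lt_pi h h2) (Real.cosh_pos _)
  · right
    have h4 : w.im ≠ 0 := by
      rcases h3 with h3 | h3
      · exact absurd h3 (not_lt.2 h)
      · exact h3
    apply mul_ne_zero
    · apply ne_of_gt
      exact Real.cos_pos_of_mem_Ioo ⟨h1, by linarith⟩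
    · rwa [Ne, Real.sinh_eq_zero]

theorem star_WC {w : ℂ} (hw : w ∈ WC) {t : ℝ} (ht : t ∈ Icc (0 : ℝ) 1) : (t : ℂ) * w ∈ WC := by
  obtain ⟨h1, h2⟩ := hw
  obtain ⟨t0, t1⟩ := ht
  have hp := Real.pi_pos
  have hre : ((t : ℂ) * w).re = t * w.re := by simp
  have him : ((t : ℂ) * w).im = t * w.im := by simp
  refine ⟨?_, ?_⟩
  · rw [hre, abs_mul, abs_of_nonneg t0]
    nlinarith [abs_nonneg w.re]
  · rw [hre, him, abs_mul, abs_of_nonneg t0]
    rcases t0.eq_or_lt with h | h
    · left
      rw [← h]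
      simp only [zero_mul]
      linarith
    · rcases h2 with h2 | h2
      · left
        nlinarith [abs_nonneg w.re]
      · right
        exact mul_ne_zero h.ne' h2

/-- the argument of the logarithm -/
theorem cosL_cont : Continuous (fun q : ℂ × ℝ => 2 * Complex.cos ((q.2 : ℂ) * q.1)) := by
  fun_prop

theorem cosL_mem {w : ℂ} (hw : w ∈ WC) {t : ℝ} (ht : t ∈ Icc (0 : ℝ) 1) :
    2 * Complex.cos ((t : ℂ) * w) ∈ Complex.slitPlane := two_mul_mem (cos_mem (star_WC hw ht))

theorem LL_deriv {w : ℂ} (hw : w ∈ WC) : HasDerivAt LL (Complex.log (2 * Complex.cos w)) w := by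
  have hne : ∀ z ∈ WC, ∀ t ∈ Icc (0 : ℝ) 1, Complex.cos ((t : ℂ) * z) ≠ 0 := fun z hz t ht =>
    Complex.slitPlane_ne_zero (cos_mem (star_WC hz ht))
  have d1 : ∀ z ∈ WC, ∀ t ∈ Icc (0 : ℝ) 1, HasDerivAt (fun z => Complex.log (2 * Complex.cos
      ((t : ℂ) * z))) (-(t * Complex.sin (t * z)) / Complex.cos (t * z)) z := by
    intro z hz t ht
    have h1 : HasDerivAt (fun z : ℂ => (t : ℂ) * z) (t : ℂ) z := by
      simpa using (hasDerivAt_id z).const_mul (t : ℂ)
    have h2 := ((h1.ccos).const_mul 2).clog (cosL_mem hz ht)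
    refine h2.congr_deriv ?_
    have := hne z hz t ht
    field_simp
  have h1 := Pool.Agent.W398.HT.par WC isOpen_WC
    (fun z t => Complex.log (2 * Complex.cos ((t : ℂ) * z)))
    (fun z t => (-(t * Complex.sin (t * z)) / Complex.cos (t * z)) • (1 : ℂ →L[ℂ] ℂ)) (by
      intro z hz t ht
      refine (d1 z hz t ht).hasFDerivAt.congr_fderiv ?_
      ext
      simp) (by
      exact cosL_cont.continuousOn.clog (by rintro ⟨q, t⟩ ⟨hq, ht⟩; exact cosL_mem hq ht)) (by
      apply ContinuousOn.fun_smul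
      · apply ContinuousOn.div
        · fun_prop
        · fun_prop
        · rintro ⟨q, t⟩ ⟨hq, ht⟩
          exact hne q hq t ht
      · exact continuousOn_const) w hw
  have hcont : ContinuousOn (fun t : ℝ => -(t * Complex.sin (t * w)) / Complex.cos (t * w))
      (uIcc (0 : ℝ) 1) := by
    rw [uIcc_of_le zero_le_one]
    apply ContinuousOn.div
    · fun_prop
    · fun_prop
    · intro t ht
      exact hne w hw t ht
  have hcontL : ContinuousOn (fun t : ℝ => Complex.log (2 * Complex.cos ((t : ℂ) * w)))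
      (uIcc (0 : ℝ) 1) := by
    rw [uIcc_of_le zero_le_one]
    apply ContinuousOn.clog
    · fun_prop
    · intro t ht
      exact cosL_mem hw ht
  have h2 : HasDerivAt (fun z => ∫ t in (0 : ℝ)..1, Complex.log (2 * Complex.cos ((t : ℂ) * z)))
      (∫ t in (0 : ℝ)..1, -(t * Complex.sin (t * w)) / Complex.cos (t * w)) w := by
    refine h1.hasDerivAt.congr_deriv ?_
    rw [ContinuousLinearMap.intervalIntegral_apply]
    · simp
    · apply ContinuousOn.intervalIntegrable
      exact hcont.smul continuousOn_const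
  have h3 : HasDerivAt LL (1 * (∫ t in (0 : ℝ)..1, Complex.log (2 * Complex.cos ((t : ℂ) * w))) +
      w * ∫ t in (0 : ℝ)..1, -(t * Complex.sin (t * w)) / Complex.cos (t * w)) w :=
    (hasDerivAt_id w).mul h2
  refine h3.congr_deriv ?_
  have hd : ∀ t ∈ uIcc (0 : ℝ) 1, HasDerivAt (fun t : ℝ => (t : ℂ) *
      Complex.log (2 * Complex.cos ((t : ℂ) * w)))
      (Complex.log (2 * Complex.cos ((t : ℂ) * w)) +
        w * (-(t * Complex.sin (t * w)) / Complex.cos (t * w))) t := by
    intro t ht
    rw [uIcc_of_le zero_le_one] at ht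
    have e1 : HasDerivAt (fun t : ℝ => (t : ℂ)) 1 t := Complex.ofRealCLM.hasDerivAt
    have e2 : HasDerivAt (fun t : ℝ => (t : ℂ) * w) w t := by
      simpa using e1.mul_const w
    have e3 : HasDerivAt (fun t : ℝ => 2 * Complex.cos ((t : ℂ) * w))
        (2 * (-Complex.sin ((t : ℂ) * w) * w)) t := by
      have := (Complex.hasDerivAt_cos ((t : ℂ) * w)).comp t e2
      exact this.const_mul 2
    have e4 := e1.mul (e3.clog_real (cosL_mem hw ht))
    refine e4.congr_deriv ?_
    have := hne w hw t ht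
    field_simp
  have i1 := hcontL.intervalIntegrable (μ := volume)
  have i2 := (hcont.intervalIntegrable (μ := volume)).const_mul w
  have hint := intervalIntegral.integral_eq_sub_of_hasDerivAt hd (i1.add i2)
  rw [intervalIntegral.integral_add i1 i2, intervalIntegral.integral_const_mul] at hint
  rw [one_mul, hint]
  simp

theorem LS_eq (w : ℂ) : LS w = π * ssF (w / π) := by
  unfold LS ssF
  have hp : (π : ℂ) ≠ 0 := by exact_mod_cast Real.pi_ne_zero
  rw [← mul_assoc, mul_div_cancel₀ _ hp]
  congr 1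
  apply intervalIntegral.integral_congr
  intro t _
  simp only
  congr 3
  field_simp

theorem kk_mem {δ : ℂ} (h : π * δ ∈ WS) {t : ℝ} (ht : t ∈ Icc (0 : ℝ) 1) :
    Pool.Agent.W398.HT.kk δ t ∈ Complex.slitPlane := by
  have hp := Real.pi_pos
  obtain ⟨t0, t1⟩ := ht
  have hre : (π * δ).re = π * δ.re := by simp
  have him : (π * δ).im = π * δ.im := by simp
  rcases t0.eq_or_lt with h0 | h0
  · rw [← h0]
    unfold Pool.Agent.W398.HT.kk
    simp only [Complex.ofReal_zero, mul_zero, Pool.Agent.W398.HT.sc_zero, mul_one]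
    rw [mul_assoc]
    apply two_mul_mem
    rw [Complex.mem_slitPlane_iff]
    exact h.2.2
  · have h1 := Pool.Agent.W398.HT.sin_kk δ t
    have h2 : (t : ℂ) ≠ 0 := by exact_mod_cast h0.ne'
    have h3 : Pool.Agent.W398.HT.kk δ t = ((t⁻¹ : ℝ) : ℂ) * (2 * Complex.sin (π * δ * t)) := by
      rw [h1]
      push_cast
      field_simp
    rw [h3]
    have h4 : π * δ * t ∈ WS := by
      obtain ⟨a1, a2, a3⟩ := h
      have hre' : (π * δ * t).re = t * (π * δ).re := by simp; ring
      have him' : (π * δ * t).im = t * (π * δ).im := by simp; ring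
      refine ⟨?_, ?_, ?_⟩
      · rw [hre']
        nlinarith
      · rw [hre']
        nlinarith
      · rw [hre', him']
        rcases a3 with a3 | a3
        · left; positivity
        · right; exact mul_ne_zero h0.ne' a3
    have h5 := two_mul_mem (sin_mem h4)
    rw [Complex.mem_slitPlane_iff] at h5 ⊢
    rw [Complex.re_ofReal_mul, Complex.im_ofReal_mul]
    rcases h5 with h5 | h5
    · left; positivity
    · right; exact mul_ne_zero (inv_ne_zero h0.ne') h5

theorem LS_deriv {w : ℂ} (hw : w ∈ WS) : HasDerivAt LS (Complex.log (2 * Complex.sin w)) w := by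
  have hp : (π : ℂ) ≠ 0 := by exact_mod_cast Real.pi_ne_zero
  have hV : IsOpen {δ : ℂ | π * δ ∈ WS} := isOpen_WS.preimage (by fun_prop)
  have h1 := Pool.Agent.W398.HT.ss_deriv hV (fun δ hδ t ht => kk_mem hδ ht) (w / π) (by
    show π * (w / π) ∈ WS
    rwa [mul_div_cancel₀ _ hp])
  have h2 : HasDerivAt (fun w : ℂ => w / π) (1 / π) w := (hasDerivAt_id w).div_const _
  have h3 := (h1.comp w h2).const_mul (π : ℂ)
  rw [mul_div_cancel₀ _ hp] at h3
  have h4 : LS = fun w => π * (ssF ∘ fun w : ℂ => w / π) w := by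
    funext z
    exact LS_eq z
  rw [h4]
  refine h3.congr_deriv ?_
  field_simp

end Pool.Agent.N119.VS
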