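import Mathlib

/-!
# Small vertices: elementary inequalities on the region `GG`
-/

set_option autoImplicit false
set_option linter.unusedSectionVars false

namespace Pool.Agent.N119.VS

open scoped Real

theorem cos_ge {X : ℝ} (h : |X| < 33 / 16) : -(19 / 40) ≤ Real.cos X := by
  have hp := Real.pi_gt_d6
  have hp2 := Real.pi_lt_d6
  rw [← Real.cos_abs]
  have h1 : Real.cos (33 / 16) ≤ Real.cos |X| :=
    Real.cos_le_cos_of_nonneg_of_le_pi (abs_nonneg _) (by linarith) h.le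
  have h2 : Real.cos (33 / 16) = -Real.sin (33 / 16 - π / 2) := by
    rw [Real.sin_sub_pi_div_two, neg_neg]
  set y := 33 / 16 - π / 2 with hy
  have y0 : 0.4917 < y := by rw [hy]; norm_num at hp2 ⊢; linarith
  have y1 : y < 0.491705 := by rw [hy]; norm_num at hp ⊢; linarith
  have h3 := Real.sin_bound (x := y) (by rw [abs_of_pos (by linarith)]; linarith)
  rw [abs_of_pos (show 0 < y by linarith)] at h3
  have h4 := (abs_le.1 h3).2
  have e3 : (0.4917 : ℝ) ^ 3 ≤ y ^ 3 := by gcongr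
  have e4 : y ^ 5 ≤ (0.491705 : ℝ) ^ 5 := by gcongr
  rw [h2] at h1
  norm_num at e3 e4
  linarith

theorem cosh_le {Y : ℝ} (h0 : 0 < Y) (h : Y < 39 / 20) : Real.cosh Y ≤ 18 / 5 := by
  have h1 : Real.cosh Y ≤ Real.cosh (39 / 20) := by
    rw [Real.cosh_le_cosh, abs_of_pos h0, abs_of_pos (by norm_num)]
    exact h.le
  refine h1.trans ?_
  rw [Real.cosh_eq]
  have e1 := Real.exp_one_lt_d9
  have e0 := Real.exp_one_gt_d9
  have h2 : Real.exp (39 / 20) * Real.exp (1 / 20) = Real.exp 1 * Real.exp 1 := by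
    rw [← Real.exp_add, ← Real.exp_add]
    norm_num
  have h3 : (1 : ℝ) / 20 + 1 ≤ Real.exp (1 / 20) := Real.add_one_le_exp _
  have h4 : Real.exp (39 / 20) ≤ 7.038 := by
    have : Real.exp (39 / 20) * (21 / 20) ≤ Real.exp 1 * Real.exp 1 := by
      rw [← h2]
      have := Real.exp_pos (39 / 20)
      nlinarith
    nlinarith
  have h5 : Real.exp (-(39 / 20)) ≤ 0.16 := by
    rw [Real.exp_neg]
    rw [inv_le_comm₀ (Real.exp_pos _) (by norm_num)]
    have : Real.exp 1 * Real.exp 1 ≤ Real.exp (39 / 20) * Real.exp 1 := by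
      rw [← h2]
      have a := Real.exp_pos (39 / 20)
      have : Real.exp (1 / 20) ≤ Real.exp 1 := Real.exp_le_exp.2 (by norm_num)
      nlinarith
    have h6 : Real.exp (1 / 20) ≤ 1.1 := by
      have : Real.exp (1 / 20) ≤ 1 / (1 - 1 / 20) := by
        have := Real.exp_bound_div_one_sub_of_interval' (x := 1 / 20) (by norm_num) (by norm_num)
        linarith
      norm_num at this ⊢
      linarith
    have h7 : Real.exp 1 * Real.exp 1 ≤ Real.exp (39 / 20) * 1.1 := by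
      rw [← h2]
      have a := Real.exp_pos (39 / 20)
      nlinarith
    nlinarith
  linarith

section
variable {Ch q : ℝ} (h1 : 1 < Ch) (h2 : Ch ≤ 18 / 5) (h3 : -(19 / 40) ≤ q) (h4 : q ≤ 1)
  (h5 : -1 < q * Ch)
include h1 h5

theorem D2_pos : 4 + (Ch + q) ^ 2 < 8 + 4 * (q * Ch) + (Ch + q) ^ 2 := by linarith

theorem in1 : (2 + (Ch + q)) ^ 2 ≤ (71 / 50) ^ 2 * (8 + 4 * (q * Ch) + (Ch + q) ^ 2) := by
  nlinarith [sq_nonneg (Ch + q - 2), sq_nonneg (Ch + q)]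

include h2 h4 in
theorem in2 (ha : 2 ≤ Ch + q) :
    (Ch + q - 2) ^ 2 ≤ (2 / 5) ^ 2 * (8 + 4 * (q * Ch) + (Ch + q) ^ 2) := by
  rcases le_or_gt (Ch + q) (367 / 100) with h | h
  · nlinarith
  · have e1 : 0 ≤ (18 / 5 - Ch) * (1 - q) := mul_nonneg (by linarith) (by linarith)
    have e2 : 18 / 5 * (Ch + q) - 324 / 25 ≤ q * Ch := by nlinarith
    nlinarith

include h3 in
theorem in3 (ha : Ch + q ≤ 2) :
    (2 - (Ch + q)) ^ 2 ≤ (3 / 5) ^ 2 * (8 + 4 * (q * Ch) + (Ch + q) ^ 2) := by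
  rcases le_or_gt 0 q with h | h
  · have : 0 ≤ q * Ch := mul_nonneg h (by linarith)
    nlinarith
  · have e : 0 ≤ (Ch - 1) * (3.36 + 0.16 * q - 0.64 * Ch) :=
      mul_nonneg (by linarith) (by norm_num; linarith)
    norm_num at e
    nlinarith

include h2 h3 h4 in
theorem in4 : (37 / 10 + 3 / 20 * (Ch + q)) ^ 2 ≤
    (3127 / 2000) ^ 2 * (8 + 4 * (q * Ch) + (Ch + q) ^ 2) := by
  have e : 0 ≤ (q + 19 / 40) * ((3127 / 2000) ^ 2 * (6 * Ch + q - 19 / 40) - 111 / 100 -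
      9 / 400 * (2 * Ch + q - 19 / 40)) := mul_nonneg (by linarith) (by nlinarith)
  have f : 0 ≤ (3127 / 2000 : ℝ) ^ 2 * (Ch ^ 2 - 6 * (19 / 40) * Ch + 8 + (19 / 40) ^ 2) -
      (37 / 10 - 3 / 20 * (19 / 40) + 3 / 20 * Ch) ^ 2 := by
    nlinarith [sq_nonneg (Ch - 166 / 100)]
  nlinarith

include h3 in
theorem in5 : (2 + (Ch + q)) ^ 2 < Ch ^ 2 * (8 + 4 * (q * Ch) + (Ch + q) ^ 2) := by
  have hQ : 0 < Ch ^ 3 + (6 * q + 1) * Ch ^ 2 + (q + 2) * (q + 4) * Ch + (q + 2) ^ 2 := by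
    have e : Ch ^ 3 + (6 * q + 1) * Ch ^ 2 + (q + 2) * (q + 4) * Ch + (q + 2) ^ 2 =
      Ch * (Ch ^ 2 + 6 * (q * Ch) + Ch + q ^ 2 + 6 * q + 8) + (q + 2) ^ 2 := by ring
    have hq : -1 < q := by nlinarith
    have e2 : 0 < Ch ^ 2 + 6 * (q * Ch) + Ch + q ^ 2 + 6 * q + 8 := by nlinarith
    rw [e]
    positivity
  have e : Ch ^ 2 * (8 + 4 * (q * Ch) + (Ch + q) ^ 2) - (2 + (Ch + q)) ^ 2 =
    (Ch - 1) * (Ch ^ 3 + (6 * q + 1) * Ch ^ 2 + (q + 2) * (q + 4) * Ch + (q + 2) ^ 2) := by ring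
  have : 0 < (Ch - 1) * (Ch ^ 3 + (6 * q + 1) * Ch ^ 2 + (q + 2) * (q + 4) * Ch + (q + 2) ^ 2) :=
    mul_pos (by linarith) hQ
  linarith

end

end Pool.Agent.N119.VS
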