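import Pool.Agent.N119.VS.Cal
import Pool.Agent.N119.VS.Ineq

/-!
# Small vertices: the horizontal line through the critical point
-/

set_option autoImplicit false

namespace Pool.Agent.N119.VS

open Filter Topology Metric MeasureTheory Set
open Pool.Agent.W711.HT Pool.Agent.N561
open scoped Real

theorem dst_zero (φ : ℂ) : dst 0 φ = 1 / π * Complex.arctan (Complex.cos (φ / 2)) := by
  simp [dst]

theorem norm_one_add_cos (u : ℂ) :
    ‖1 + Complex.cos u‖ = Real.cosh u.im + Real.cos u.re := by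
  have h : ‖1 + Complex.cos u‖ ^ 2 = (Real.cosh u.im + Real.cos u.re) ^ 2 := by
    rw [← Complex.normSq_eq_norm_sq, Complex.normSq_apply]
    simp only [Complex.add_re, Complex.add_im, Complex.one_re, Complex.one_im, cos_re', cos_im']
    have e1 := Real.sin_sq_add_cos_sq u.re
    have e2 := Real.cosh_sq u.im
    have e3 : Real.sinh u.im ^ 2 = Real.cosh u.im ^ 2 - 1 := by linarith
    have e4 : Real.sin u.re ^ 2 = 1 - Real.cos u.re ^ 2 := by linarith
    have e5 : (Real.sin u.re * Real.sinh u.im) ^ 2 =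
      (1 - Real.cos u.re ^ 2) * (Real.cosh u.im ^ 2 - 1) := by rw [mul_pow, e3, e4]
    linear_combination e5
  refine (sq_eq_sq₀ (norm_nonneg _) ?_).1 h
  have := Real.one_le_cosh u.im
  have := Real.neg_one_le_cos u.re
  linarith

theorem norm_one_sub_cos (u : ℂ) :
    ‖1 - Complex.cos u‖ = Real.cosh u.im - Real.cos u.re := by
  have h : ‖1 - Complex.cos u‖ ^ 2 = (Real.cosh u.im - Real.cos u.re) ^ 2 := by
    rw [← Complex.normSq_eq_norm_sq, Complex.normSq_apply]
    simp only [Complex.sub_re, Complex.sub_im, Complex.one_re, Complex.one_im, cos_re', cos_im']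
    have e1 := Real.sin_sq_add_cos_sq u.re
    have e2 := Real.cosh_sq u.im
    have e3 : Real.sinh u.im ^ 2 = Real.cosh u.im ^ 2 - 1 := by linarith
    have e4 : Real.sin u.re ^ 2 = 1 - Real.cos u.re ^ 2 := by linarith
    have e5 : (Real.sin u.re * Real.sinh u.im) ^ 2 =
      (1 - Real.cos u.re ^ 2) * (Real.cosh u.im ^ 2 - 1) := by rw [mul_pow, e3, e4]
    linear_combination e5
  refine (sq_eq_sq₀ (norm_nonneg _) ?_).1 h
  have := Real.one_le_cosh u.im
  have := Real.cos_le_one u.re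
  linarith

theorem arctan_facts {w : ℂ} (h1 : 0 < w.re) (h2 : w.im < 0) :
    (Complex.arctan w).im < 0 ∧ 0 < (Complex.arctan w).re ∧ (Complex.arctan w).re < π / 2 ∧
      1 + w ^ 2 ≠ 0 ∧ Complex.cos (2 * Complex.arctan w) = (1 - w ^ 2) / (1 + w ^ 2) := by
  set p := 1 + w * Complex.I with hp
  set m := 1 - w * Complex.I with hm
  set q := p / m with hq
  have pre : p.re = 1 - w.im := by simp [hp]; ring
  have pim : p.im = w.re := by simp [hp]
  have mre : m.re = 1 + w.im := by simp [hm]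
  have mim : m.im = -w.re := by simp [hm]
  have p0 : p ≠ 0 := fun h => by
    have := congrArg Complex.im h
    rw [pim] at this
    simp at this
    linarith
  have m0 : m ≠ 0 := fun h => by
    have := congrArg Complex.im h
    rw [mim] at this
    simp at this
    linarith
  have q0 : q ≠ 0 := div_ne_zero p0 m0
  have hA : Complex.arctan w = -Complex.I / 2 * Complex.log q := rfl
  have hre : (Complex.arctan w).re = (Complex.log q).im / 2 := by
    rw [hA]
    simp
    ring
  have him : (Complex.arctan w).im = -(Complex.log q).re / 2 := by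
    rw [hA]
    simp
    ring
  have hnorm : 1 < ‖q‖ := by
    rw [hq, norm_div, one_lt_div (norm_pos_iff.2 m0)]
    apply lt_of_pow_lt_pow_left₀ 2 (norm_nonneg _)
    rw [← Complex.normSq_eq_norm_sq, ← Complex.normSq_eq_norm_sq, Complex.normSq_apply,
      Complex.normSq_apply, pre, pim, mre, mim]
    nlinarith
  have hqim : 0 < q.im := by
    rw [hq, Complex.div_im, pre, pim, mre, mim]
    have : 0 < Complex.normSq m := Complex.normSq_pos.2 m0
    rw [← sub_div]
    apply div_pos _ this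
    nlinarith
  have hs : 0 < Real.sin (Complex.arg q) := by
    rw [Complex.sin_arg]
    exact div_pos hqim (norm_pos_iff.2 q0)
  have ha1 : 0 ≤ Complex.arg q := Complex.arg_nonneg_iff.2 hqim.le
  have ha2 : Complex.arg q ≤ π := Complex.arg_le_pi q
  have ha3 : 0 < Complex.arg q := by
    rcases ha1.eq_or_lt with h | h
    · rw [← h, Real.sin_zero] at hs
      exact absurd hs (lt_irrefl _)
    · exact h
  have ha4 : Complex.arg q < π := by
    rcases ha2.eq_or_lt with h | h
    · rw [h, Real.sin_pi] at hs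
      exact absurd hs (lt_irrefl _)
    · exact h
  have hpm : p * m = 1 + w ^ 2 := by
    rw [hp, hm]
    ring_nf
    rw [Complex.I_sq]
    ring
  have hne : 1 + w ^ 2 ≠ 0 := by
    rw [← hpm]
    exact mul_ne_zero p0 m0
  refine ⟨?_, ?_, ?_, hne, ?_⟩
  · rw [him, Complex.log_re]
    have := Real.log_pos hnorm
    linarith
  · rw [hre, Complex.log_im]
    linarith
  · rw [hre, Complex.log_im]
    linarith
  · have e1 : 2 * Complex.arctan w * Complex.I = Complex.log q := by
      rw [hA]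
      ring_nf
      rw [Complex.I_sq]
      ring
    rw [Complex.cos, e1, neg_mul, e1, Complex.exp_neg, Complex.exp_log q0, hq, ← hpm]
    field_simp
    rw [hp, hm]
    ring_nf
    rw [Complex.I_sq]
    ring

theorem TH_deriv {ψ φ δ : ℂ} (h0 : π * δ ∈ WS) (h1 : π * δ + ψ / 2 ∈ WC)
    (h2 : π * δ - ψ / 2 ∈ WC) (h3 : π * δ + φ / 2 ∈ WC) (h4 : π * δ - φ / 2 ∈ WC) :
    HasDerivAt (TH ψ φ) (Complex.log (2 * Complex.cos (π * δ + ψ / 2)) +
      Complex.log (2 * Complex.cos (π * δ - ψ / 2)) +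
      (Complex.log (2 * Complex.cos (π * δ + φ / 2)) +
      Complex.log (2 * Complex.cos (π * δ - φ / 2))) -
      4 * Complex.log (2 * Complex.sin (π * δ))) δ := by
  have hp : (π : ℂ) ≠ 0 := by exact_mod_cast Real.pi_ne_zero
  have a0 : HasDerivAt (fun δ : ℂ => π * δ) (π : ℂ) δ := by
    simpa using (hasDerivAt_id δ).const_mul (π : ℂ)
  have a1 := (LL_deriv h1).comp δ (a0.add_const (ψ / 2))
  have a2 := (LL_deriv h2).comp δ (a0.sub_const (ψ / 2))
  have a3 := (LL_deriv h3).comp δ (a0.add_const (φ / 2))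
  have a4 := (LL_deriv h4).comp δ (a0.sub_const (φ / 2))
  have a5 := (LS_deriv h0).comp δ a0
  have := (((a1.add a2).div_const (π : ℂ)).add ((a3.add a4).div_const (π : ℂ))).sub
    ((a5.div_const (π : ℂ)).const_mul 4)
  refine (this.congr_deriv ?_)
  field_simp

/-- the basic estimates at the critical point -/
theorem main_facts {φ : ℂ} (hφ : φ ∈ GG) (h0 : 0 < φ.re) :
    (dst 0 φ).im < 0 ∧ 0 < (dst 0 φ).re ∧ (dst 0 φ).re < 1 / 2 ∧
    2 * π * |(dst 0 φ).im| < φ.im ∧
    Real.cosh (2 * π * (dst 0 φ).im) ≤ 71 / 50 ∧ -(2 / 5) ≤ Real.cos (2 * π * (dst 0 φ).re) ∧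
    Real.cos (2 * π * (dst 0 φ).re) ≤ 3 / 5 ∧
    Real.cosh (2 * π * (dst 0 φ).im) ≤ 3127 / 2000 - 17 / 20 * Real.cos (2 * π * (dst 0 φ).re) ∧
    3 + Complex.cos φ ≠ 0 ∧
    Complex.cos (2 * π * dst 0 φ) = (1 - Complex.cos φ) / (3 + Complex.cos φ) := by
  obtain ⟨g1, g2, g3, g4⟩ := hφ
  have hp := Real.pi_pos
  have hpc : (π : ℂ) ≠ 0 := by exact_mod_cast Real.pi_ne_zero
  set w := Complex.cos (φ / 2) with hw
  have hre2 : (φ / 2).re = φ.re / 2 := by simp
  have him2 : (φ / 2).im = φ.im / 2 := by simp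
  have hpi3 := Real.pi_gt_three
  rw [abs_lt] at g1
  have w1 : 0 < w.re := by
    rw [hw, cos_re', hre2]
    apply mul_pos _ (Real.cosh_pos _)
    exact Real.cos_pos_of_mem_Ioo ⟨by linarith, by linarith⟩
  have w2 : w.im < 0 := by
    rw [hw, cos_im', hre2, him2]
    have a1 : 0 < Real.sin (φ.re / 2) := Real.sin_pos_of_pos_of_lt_pi (by linarith) (by linarith)
    have a2 : 0 < Real.sinh (φ.im / 2) := Real.sinh_pos_iff.2 (by linarith)
    have := mul_pos a1 a2
    linarith
  obtain ⟨f1, f2, f3, f4, f5⟩ := arctan_facts w1 w2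
  set A := Complex.arctan w with hA
  have hz : dst 0 φ = ((1 / π : ℝ) : ℂ) * A := by
    rw [dst_zero]
    push_cast
    rfl
  have zre : (dst 0 φ).re = A.re / π := by
    rw [hz, Complex.re_ofReal_mul]
    ring
  have zim : (dst 0 φ).im = A.im / π := by
    rw [hz, Complex.im_ofReal_mul]
    ring
  have e2im : 2 * π * (dst 0 φ).im = (2 * A).im := by
    rw [zim]
    simp
    field_simp
  have e2re : 2 * π * (dst 0 φ).re = (2 * A).re := by
    rw [zre]
    simp
    field_simp
  have e2 : 2 * π * dst 0 φ = 2 * A := by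
    rw [hz]
    push_cast
    field_simp
  have hw2 : w ^ 2 = (1 + Complex.cos φ) / 2 := by
    rw [hw, Complex.cos_sq]
    have : 2 * (φ / 2) = φ := by ring
    rw [this]
    ring
  have c3 : 3 + Complex.cos φ ≠ 0 := by
    intro h
    apply f4
    rw [hw2]
    linear_combination h / 2
  have hC : Complex.cos (2 * A) = (1 - Complex.cos φ) / (3 + Complex.cos φ) := by
    rw [f5]
    rw [div_eq_div_iff f4 c3, hw2]
    ring
  have n1 := norm_one_add_cos (2 * A)
  have n2 := norm_one_sub_cos (2 * A)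
  have n3 := norm_one_add_cos φ
  have m1 : 1 + Complex.cos (2 * A) = 4 / (3 + Complex.cos φ) := by
    rw [hC]
    field_simp
    ring
  have m2 : 1 - Complex.cos (2 * A) = 2 * (1 + Complex.cos φ) / (3 + Complex.cos φ) := by
    rw [hC]
    field_simp
    ring
  set D := ‖3 + Complex.cos φ‖ with hD
  have D0 : 0 < D := norm_pos_iff.2 c3
  rw [m1, norm_div, ← hD] at n1
  rw [m2, norm_div, norm_mul, ← hD, n3] at n2
  simp only [Complex.norm_ofNat] at n1 n2
  set H := Real.cosh (2 * A).im with hH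
  set k := Real.cos (2 * A).re with hk
  set Ch := Real.cosh φ.im with hCh
  set q := Real.cos φ.re with hq
  have Ch1 : 1 < Ch := Real.one_lt_cosh.2 (by linarith)
  have Ch2 : Ch ≤ 18 / 5 := cosh_le g2 g3
  have q1 : -(19 / 40) ≤ q := cos_ge (abs_lt.2 g1)
  have q2 : q ≤ 1 := Real.cos_le_one _
  have hD2 : D ^ 2 = 8 + 4 * (q * Ch) + (Ch + q) ^ 2 := by
    rw [hD, ← Complex.normSq_eq_norm_sq, Complex.normSq_apply]
    simp only [Complex.add_re, Complex.add_im, Complex.re_ofNat, Complex.im_ofNat, cos_re',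
      cos_im', ← hq, ← hCh]
    have e1 := Real.sin_sq_add_cos_sq φ.re
    have e2 := Real.cosh_sq φ.im
    have e3 : Real.sinh φ.im ^ 2 = Ch ^ 2 - 1 := by linarith
    have e4 : Real.sin φ.re ^ 2 = 1 - q ^ 2 := by linarith
    have e5 : (Real.sin φ.re * Real.sinh φ.im) ^ 2 =
      (1 - q ^ 2) * (Ch ^ 2 - 1) := by rw [mul_pow, e3, e4]
    linear_combination e5
  have s1 : (H + k) * D = 4 := by
    rw [← n1]
    field_simp
  have s2 : (H - k) * D = 2 * (Ch + q) := by
    rw [← n2]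
    field_simp
  have s3 : H * D = 2 + (Ch + q) := by linarith
  have s4 : k * D = 2 - (Ch + q) := by linarith
  have i1 := in1 Ch1 g4
  have i5 := in5 Ch1 q1 g4
  have i4 := in4 Ch1 Ch2 q1 q2 g4
  rw [← hD2] at i1 i4 i5
  rw [← mul_pow] at i1 i4 i5
  have a0 : 0 < Ch + q := by linarith
  have j1 : 2 + (Ch + q) ≤ 71 / 50 * D := (sq_le_sq₀ (by positivity) (by positivity)).1 i1
  have j4 : 37 / 10 + 3 / 20 * (Ch + q) ≤ 3127 / 2000 * D :=
    (sq_le_sq₀ (by positivity) (by positivity)).1 i4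
  have j5 : 2 + (Ch + q) < Ch * D := (sq_lt_sq₀ (by positivity) (by positivity)).1 i5
  have j2 : Ch + q - 2 ≤ 2 / 5 * D := by
    rcases le_or_gt 2 (Ch + q) with h | h
    · have i2 := in2 Ch1 Ch2 q2 g4 h
      rw [← hD2, ← mul_pow] at i2
      exact (sq_le_sq₀ (by linarith) (by positivity)).1 i2
    · have : 0 < 2 / 5 * D := by positivity
      linarith
  have j3 : 2 - (Ch + q) ≤ 3 / 5 * D := by
    rcases le_or_gt (Ch + q) 2 with h | h
    · have i3 := in3 Ch1 q1 g4 h
      rw [← hD2, ← mul_pow] at i3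
      exact (sq_le_sq₀ (by linarith) (by positivity)).1 i3
    · have : 0 < 3 / 5 * D := by positivity
      linarith
  have k5 : H < Ch := by
    rw [← s3] at j5
    exact lt_of_mul_lt_mul_right j5 D0.le
  rw [e2im, e2re, e2, ← hH, ← hk]
  refine ⟨?_, ?_, ?_, ?_, ?_, ?_, ?_, ?_, c3, hC⟩
  · rw [zim]
    exact div_neg_of_neg_of_pos f1 hp
  · rw [zre]
    positivity
  · rw [zre, div_lt_iff₀ hp]
    linarith
  · rw [hH, hCh, Real.cosh_lt_cosh, ← e2im, abs_mul, abs_of_pos g2,
      abs_of_pos (show 0 < 2 * π by positivity)] at k5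
    exact k5
  · rw [← s3] at j1
    exact le_of_mul_le_mul_right j1 D0
  · refine le_of_mul_le_mul_right (a := D) ?_ D0
    rw [s4]
    linarith
  · refine le_of_mul_le_mul_right (a := D) ?_ D0
    rw [s4]
    linarith
  · refine le_of_mul_le_mul_right (a := D) ?_ D0
    rw [s3, sub_mul, mul_assoc, s4]
    linarith

/-- the horizontal line, `v < 0` -/
theorem mem_conds {φ : ℂ} (h0 : 0 < φ.re) (h1 : φ.re < 33 / 16) {s v : ℝ} (hs : 0 ≤ s)
    (hs1 : s ≤ 1 / 2) (hv : v ≠ 0) (hv1 : 2 * π * |v| < φ.im) :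
    (π * ((s : ℂ) + v * Complex.I) ∈ WS ∧ π * ((s : ℂ) + v * Complex.I) + 0 / 2 ∈ WC) ∧
    (π * ((s : ℂ) + v * Complex.I) - 0 / 2 ∈ WC ∧
    π * ((s : ℂ) + v * Complex.I) + φ / 2 ∈ WC) ∧
    π * ((s : ℂ) + v * Complex.I) - φ / 2 ∈ WC := by
  have hp := Real.pi_pos
  have hp3 := Real.pi_gt_three
  have hvv : -|v| ≤ v ∧ v ≤ |v| := ⟨neg_abs_le v, le_abs_self v⟩
  have b1 : 0 ≤ π * s := by positivity
  have b2 : π * s ≤ π / 2 := by nlinarith
  have b3 : π * |v| < φ.im / 2 := by linarith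
  have b4 : π * v ≤ π * |v| := by nlinarith
  have b5 : -(π * |v|) ≤ π * v := by nlinarith
  have r1 : (π * ((s : ℂ) + v * Complex.I)).re = π * s := by simp
  have r2 : (π * ((s : ℂ) + v * Complex.I)).im = π * v := by simp
  have r3 : (φ / 2).re = φ.re / 2 := by simp
  have r4 : (φ / 2).im = φ.im / 2 := by simp
  refine ⟨⟨⟨?_, ?_, ?_⟩, ⟨?_, ?_⟩⟩, ⟨⟨?_, ?_⟩, ⟨?_, ?_⟩⟩, ⟨?_, ?_⟩⟩
  · rw [r1]; linarith
  · rw [r1]; linarith
  · right; rw [r2]; exact mul_ne_zero hp.ne' hv
  · rw [Complex.add_re, r1]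
    simp only [zero_div, Complex.zero_re, add_zero]
    rw [abs_of_nonneg b1]; linarith
  · right; rw [Complex.add_im, r2]
    simp only [zero_div, Complex.zero_im, add_zero]
    exact mul_ne_zero hp.ne' hv
  · rw [Complex.sub_re, r1]
    simp only [zero_div, Complex.zero_re, sub_zero]
    rw [abs_of_nonneg b1]; linarith
  · right; rw [Complex.sub_im, r2]
    simp only [zero_div, Complex.zero_im, sub_zero]
    exact mul_ne_zero hp.ne' hv
  · rw [Complex.add_re, r1, r3, abs_of_nonneg (by linarith)]; linarith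
  · right; rw [Complex.add_im, r2, r4]; apply ne_of_gt; linarith
  · rw [Complex.sub_re, r1, r3, abs_lt]; constructor <;> linarith
  · right; rw [Complex.sub_im, r2, r4]; apply ne_of_lt; linarith

/-- the logarithmic derivative in real form -/
theorem deriv_re {φ u : ℂ} (h0 : u ∈ WS) (h1 : u ∈ WC)
    (h3 : u + φ / 2 ∈ WC) (h4 : u - φ / 2 ∈ WC) :
    (Complex.log (2 * Complex.cos u) + Complex.log (2 * Complex.cos u) +
      (Complex.log (2 * Complex.cos (u + φ / 2)) + Complex.log (2 * Complex.cos (u - φ / 2))) -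
      4 * Complex.log (2 * Complex.sin u)).re =
    Real.log ((‖1 + Complex.cos (2 * u)‖ * ‖Complex.cos (2 * u) + Complex.cos φ‖)) -
      Real.log (‖1 - Complex.cos (2 * u)‖ ^ 2) ∧
    0 < ‖1 + Complex.cos (2 * u)‖ * ‖Complex.cos (2 * u) + Complex.cos φ‖ ∧
    0 < ‖1 - Complex.cos (2 * u)‖ := by
  have c1 : Complex.cos u ≠ 0 := Complex.slitPlane_ne_zero (cos_mem h1)
  have c2 : Complex.sin u ≠ 0 := Complex.slitPlane_ne_zero (sin_mem h0)
  have c3 : Complex.cos (u + φ / 2) ≠ 0 := Complex.slitPlane_ne_zero (cos_mem h3)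
  have c4 : Complex.cos (u - φ / 2) ≠ 0 := Complex.slitPlane_ne_zero (cos_mem h4)
  have e1 : 1 + Complex.cos (2 * u) = 2 * (Complex.cos u * Complex.cos u) := by
    rw [Complex.cos_two_mul]; ring
  have e2 : 1 - Complex.cos (2 * u) = 2 * (Complex.sin u * Complex.sin u) := by
    rw [Complex.cos_two_mul, Complex.cos_sq']; ring
  have e3 : Complex.cos (2 * u) + Complex.cos φ =
      2 * (Complex.cos (u + φ / 2) * Complex.cos (u - φ / 2)) := by
    have k1 := Complex.cos_add (u + φ / 2) (u - φ / 2)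
    have k2 := Complex.cos_sub (u + φ / 2) (u - φ / 2)
    rw [show u + φ / 2 + (u - φ / 2) = 2 * u by ring] at k1
    rw [show u + φ / 2 - (u - φ / 2) = φ by ring] at k2
    rw [k1, k2]
    ring
  rw [e1, e2, e3]
  have n1 := norm_pos_iff.2 c1
  have n2 := norm_pos_iff.2 c2
  have n3 := norm_pos_iff.2 c3
  have n4 := norm_pos_iff.2 c4
  simp only [Complex.sub_re, Complex.add_re, Complex.log_re, Complex.mul_re, Complex.re_ofNat,
    Complex.im_ofNat, zero_mul, sub_zero, norm_mul, Complex.norm_ofNat]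
  set x1 := ‖Complex.cos u‖
  set x2 := ‖Complex.sin u‖
  set x3 := ‖Complex.cos (u + φ / 2)‖
  set x4 := ‖Complex.cos (u - φ / 2)‖
  have l1 : ∀ x : ℝ, 0 < x → Real.log (2 * x) = Real.log 2 + Real.log x := fun x hx =>
    Real.log_mul (by norm_num) hx.ne'
  have l2 : Real.log (2 * (x1 * x1) * (2 * (x3 * x4))) =
      Real.log 2 + (Real.log x1 + Real.log x1) + (Real.log 2 + (Real.log x3 + Real.log x4)) := by
    rw [Real.log_mul (by positivity) (by positivity), l1 _ (by positivity), l1 _ (by positivity),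
      Real.log_mul n1.ne' n1.ne', Real.log_mul n3.ne' n4.ne']
  have l3 : Real.log ((2 * (x2 * x2)) ^ 2) = 2 * (Real.log 2 + (Real.log x2 + Real.log x2)) := by
    rw [Real.log_pow, l1 _ (by positivity), Real.log_mul n2.ne' n2.ne']
    push_cast
    ring
  refine ⟨?_, by positivity, by positivity⟩
  rw [l2, l3, l1 _ n1, l1 _ n2, l1 _ n3, l1 _ n4]
  ring

/-- `NP` is a squared norm -/
theorem np_eq {φ u : ℂ} {z : ℂ} (him : u.im = z.im) (hu : 0 ≤ Real.sin u.re)
    (hz : 0 ≤ Real.sin z.re) (h3 : 3 + Complex.cos φ ≠ 0)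
    (hC : Complex.cos z = (1 - Complex.cos φ) / (3 + Complex.cos φ)) :
    NP (Real.cosh z.im) (Real.cos z.re) (Real.cos u.re) =
      ‖Complex.cos u + Complex.cos φ‖ ^ 2 * ‖1 + Complex.cos z‖ ^ 2 := by
  have h1 : (Complex.cos u + Complex.cos φ) * (1 + Complex.cos z) =
      1 - 3 * Complex.cos z + Complex.cos u + Complex.cos u * Complex.cos z := by
    have : Complex.cos φ * (1 + Complex.cos z) = 1 - 3 * Complex.cos z := by
      rw [hC]
      field_simp
      ring
    linear_combination this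
  rw [← mul_pow, ← norm_mul, h1, ← Complex.normSq_eq_norm_sq, Complex.normSq_apply]
  simp only [Complex.add_re, Complex.add_im, Complex.sub_re, Complex.sub_im, Complex.mul_re,
    Complex.mul_im, Complex.one_re, Complex.one_im, Complex.re_ofNat, Complex.im_ofNat, cos_re',
    cos_im', him]
  have e1 := Real.sin_sq_add_cos_sq u.re
  have e2 := Real.sin_sq_add_cos_sq z.re
  have e3 := Real.cosh_sq z.im
  have s1 : √(1 - Real.cos u.re ^ 2) = Real.sin u.re := by
    rw [show 1 - Real.cos u.re ^ 2 = Real.sin u.re ^ 2 by linarith, Real.sqrt_sq hu]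
  have s2 : √(1 - Real.cos z.re ^ 2) = Real.sin z.re := by
    rw [show 1 - Real.cos z.re ^ 2 = Real.sin z.re ^ 2 by linarith, Real.sqrt_sq hz]
  unfold NP
  rw [s1, s2]
  set H := Real.cosh z.im
  set S := Real.sinh z.im
  set k := Real.cos z.re
  set sk := Real.sin z.re
  set κ := Real.cos u.re
  set sκ := Real.sin u.re
  have f1 : S ^ 2 = H ^ 2 - 1 := by linarith
  have f2 : sk ^ 2 = 1 - k ^ 2 := by linarith
  have f3 : sκ ^ 2 = 1 - κ ^ 2 := by linarith
  ring_nf
  have f4 : S ^ 4 = (H ^ 2 - 1) ^ 2 := by rw [← f1]; ring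
  simp only [f1, f2, f3, f4]
  ring

theorem flat (hP : S_POLY) : S_FLAT := by
  intro φ hφ h0
  obtain ⟨f1, f2, f3, f4, f5, f6, f7, f8, f9, f10⟩ := main_facts hφ h0
  refine ⟨f1, f2, f3, f4, ?_⟩
  have hp := Real.pi_pos
  have g1 : φ.re < 33 / 16 := (abs_lt.1 hφ.1).2
  set z := dst 0 φ with hz
  set v := z.im with hv
  have hv0 : v ≠ 0 := f1.ne
  -- the two functions
  set A : ℝ → ℝ := fun s => ‖1 + Complex.cos (2 * (π * ((s : ℂ) + v * Complex.I)))‖ *
    ‖Complex.cos (2 * (π * ((s : ℂ) + v * Complex.I))) + Complex.cos φ‖ with hA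
  set B : ℝ → ℝ := fun s => ‖1 - Complex.cos (2 * (π * ((s : ℂ) + v * Complex.I)))‖ with hB
  set h : ℝ → ℝ := fun s => (TH 0 φ ((s : ℂ) + v * Complex.I)).re with hh
  have key : ∀ s : ℝ, 0 ≤ s → s ≤ 1 / 2 → HasDerivAt h (Real.log (A s) - Real.log (B s ^ 2)) s ∧
      0 < A s ∧ 0 < B s := by
    intro s hs hs1
    obtain ⟨⟨m1, m2⟩, ⟨m3, m4⟩, m5⟩ := mem_conds h0 g1 hs hs1 hv0 f4
    have d1 := TH_deriv m1 m2 m3 m4 m5
    simp only [zero_div, add_zero, sub_zero] at d1 m2 m3
    obtain ⟨e1, e2, e3⟩ := deriv_re m1 m2 m4 m5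
    have d2 := (HasDerivAt.comp_add_const (s : ℂ) (v * Complex.I) d1).real_of_complex
    rw [e1] at d2
    exact ⟨d2, e2, e3⟩
  have sgn : ∀ s : ℝ, 0 ≤ s → s ≤ 1 / 2 → (s < z.re → B s ^ 2 < A s) ∧
      (z.re < s → A s < B s ^ 2) := by
    intro s hs hs1
    have ure : (2 * (π * ((s : ℂ) + v * Complex.I))).re = 2 * π * s := by simp; ring
    have uim : (2 * (π * ((s : ℂ) + v * Complex.I))).im = 2 * π * v := by simp; ring
    have zre : (2 * π * z).re = 2 * π * z.re := by
      have : 2 * π * z = ((2 * π : ℝ) : ℂ) * z := by push_cast; ring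
      rw [this, Complex.re_ofReal_mul]
    have zim : (2 * π * z).im = 2 * π * v := by
      have : 2 * π * z = ((2 * π : ℝ) : ℂ) * z := by push_cast; ring
      rw [this, Complex.im_ofReal_mul]
    have b1 : 0 ≤ 2 * π * s := by positivity
    have b2 : 2 * π * s ≤ π := by nlinarith
    have b3 : 0 < 2 * π * z.re := by positivity
    have b4 : 2 * π * z.re < π := by nlinarith
    have t1 : 0 ≤ Real.sin (2 * (π * ((s : ℂ) + v * Complex.I))).re := by
      rw [ure]
      exact Real.sin_nonneg_of_nonneg_of_le_pi b1 b2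
    have t2 : 0 ≤ Real.sin (2 * π * z).re := by
      rw [zre]
      exact Real.sin_nonneg_of_nonneg_of_le_pi b3.le b4.le
    have hN := np_eq (u := 2 * (π * ((s : ℂ) + v * Complex.I))) (z := 2 * π * z)
      (by rw [uim, zim]) t1 t2 f9 f10
    have n1 := norm_one_add_cos (2 * (π * ((s : ℂ) + v * Complex.I)))
    have n2 := norm_one_sub_cos (2 * (π * ((s : ℂ) + v * Complex.I)))
    have n3 := norm_one_add_cos (2 * π * z)
    rw [ure, uim] at n1 n2
    rw [zre, zim] at n3 hN
    rw [ure, n3] at hN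
    have hAs : A s = (Real.cosh (2 * π * v) + Real.cos (2 * π * s)) *
        ‖Complex.cos (2 * (π * ((s : ℂ) + v * Complex.I))) + Complex.cos φ‖ := by
      rw [hA]
      simp only
      rw [n1]
    have hBs : B s = Real.cosh (2 * π * v) - Real.cos (2 * π * s) := n2
    rw [hAs, hBs]
    set N := ‖Complex.cos (2 * (π * ((s : ℂ) + v * Complex.I))) + Complex.cos φ‖ with hNd
    set H := Real.cosh (2 * π * v) with hH
    set k := Real.cos (2 * π * z.re) with hk
    set κ := Real.cos (2 * π * s) with hκ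
    have H1 : 1 ≤ H := Real.one_le_cosh _
    have κ1 : -1 ≤ κ := Real.neg_one_le_cos _
    have κ2 : κ ≤ 1 := Real.cos_le_one _
    obtain ⟨p1, p2⟩ := hP H k κ H1 f5 f6 f7 f8 κ1 κ2
    have hHk : 0 < H + k := by linarith
    have hN0 : 0 ≤ N := norm_nonneg _
    have hAN : 0 ≤ (H + κ) * N := mul_nonneg (by linarith) hN0
    rw [hN] at p1 p2
    constructor
    · intro hlt
      have : k < κ := Real.strictAntiOn_cos ⟨b1, b2⟩ ⟨b3.le, b4.le⟩ (by nlinarith)
      have := p1 this
      refine (sq_lt_sq₀ (by positivity) hAN).1 ?_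
      refine lt_of_mul_lt_mul_right (a := (H + k) ^ 2) ?_ (by positivity)
      calc ((H - κ) ^ 2) ^ 2 * (H + k) ^ 2 = (H - κ) ^ 4 * (H + k) ^ 2 := by ring
        _ < _ := this
        _ = _ := by ring
    · intro hlt
      have : κ < k := Real.strictAntiOn_cos ⟨b3.le, b4.le⟩ ⟨b1, b2⟩ (by nlinarith)
      have := p2 this
      refine (sq_lt_sq₀ hAN (by positivity)).1 ?_
      refine lt_of_mul_lt_mul_right (a := (H + k) ^ 2) ?_ (by positivity)
      calc ((H + κ) * N) ^ 2 * (H + k) ^ 2 = (H + κ) ^ 2 * (N ^ 2 * (H + k) ^ 2) := by ring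
        _ < _ := this
        _ = _ := by ring
  have hmono : StrictMonoOn h (Icc 0 z.re) := by
    apply strictMonoOn_of_deriv_pos (convex_Icc _ _)
    · intro s hs
      exact (key s hs.1 (by linarith [hs.2])).1.continuousAt.continuousWithinAt
    · intro s hs
      rw [interior_Icc] at hs
      have hk := key s hs.1.le (by linarith [hs.2])
      rw [hk.1.deriv, sub_pos]
      exact Real.log_lt_log (by have := hk.2.2; positivity)
        ((sgn s hs.1.le (by linarith [hs.2])).1 hs.2)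
  have hanti : StrictAntiOn h (Icc z.re (1 / 2)) := by
    apply strictAntiOn_of_deriv_neg (convex_Icc _ _)
    · intro s hs
      exact (key s (by linarith [hs.1]) hs.2).1.continuousAt.continuousWithinAt
    · intro s hs
      rw [interior_Icc] at hs
      have hk := key s (by linarith [hs.1]) hs.2.le
      rw [hk.1.deriv, sub_neg]
      exact Real.log_lt_log hk.2.1 ((sgn s (by linarith [hs.1]) hs.2.le).2 hs.1)
  have hzz : (sg 0 φ).re = h z.re := by
    rw [hh]
    simp only [sg]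
    rw [← hz, hv, Complex.re_add_im]
  intro x hx0 hx1 hxz
  rw [hzz]
  rcases lt_or_gt_of_ne hxz with hlt | hgt
  · exact hmono ⟨hx0, hlt.le⟩ ⟨f2.le, le_rfl⟩ hlt
  · exact hanti ⟨le_rfl, f3.le⟩ ⟨hgt.le, hx1⟩ hgt

end Pool.Agent.N119.VS
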